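import Mathlib
import Pool.Agent.X184.SS.Stm2

/-! Part SP_SYS. -/

set_option autoImplicit false

namespace Pool.Agent.X107.SP.SYS

open Finset Pool.Agent.X184.SS

/-- the condition on one block -/
def Blk (n : ℕ) (N : Set ℕ) (i v : ℕ) (z : ℕ → ℕ →₀ ℝ) : Prop :=
  (∀ l j, 0 ≤ z l j) ∧ (∀ l < i + 1, ∑ j ∈ (z l).support, z l j = 1) ∧
      (∀ l, i + 1 ≤ l → z l = 0) ∧
      (∀ l, ∀ j ∈ (z l).support, j ∈ N ∧ v + 1 ≤ j) ∧
      (∀ l l', l ≠ l' → Disjoint (z l).support (z l').support) ∧
      (range (i + 1)).biUnion (fun l => (z l).support) ∈ Sch (n + 1) ∧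
      ∀ l, ∀ F ∈ Sch n, ∑ j ∈ F, z l j ≤ 1 / (2 ^ (i + 1) * (v + 1))

theorem exB (hJ : Joint) (n : ℕ) (N : Set ℕ) (hN : N.Infinite) (i v : ℕ) :
    ∃ z, Blk n N i v z := by
  obtain ⟨z, h⟩ := hJ n N hN (1 / (2 ^ (i + 1) * (v + 1))) (by positivity) (i + 1) (v + 1)
  exact ⟨z, h⟩

theorem t_SYS : S_SYS := by
  classical
  intro _ hJ n N hN
  choose Z hZ using exB hJ n N hN
  -- the bounds
  set V : ℕ → ℕ := fun i => Nat.rec 0 (fun i v => max v
    (((range (i + 1)).biUnion fun l => (Z i v l).support).sup id)) i with hV
  have hV1 : ∀ i, V (i + 1) = max (V i)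
    (((range (i + 1)).biUnion fun l => (Z i (V i) l).support).sup id) := fun i => rfl
  have hmono : Monotone V := monotone_nat_of_le_succ fun i => by
    rw [hV1]; exact le_max_left _ _
  set z : ℕ → ℕ → ℕ →₀ ℝ := fun i => Z i (V i) with hz
  have hb : ∀ i, Blk n N i (V i) (z i) := fun i => hZ i (V i)
  have hlow : ∀ i l, ∀ j ∈ (z i l).support, V i + 1 ≤ j := fun i l j hj =>
    ((hb i).2.2.2.1 l j hj).2
  have hup : ∀ i l, ∀ j ∈ (z i l).support, j ≤ V (i + 1) := by
    intro i l j hj
    by_cases hl : l < i + 1
    · rw [hV1]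
      refine le_trans ?_ (le_max_right _ _)
      have h1 : j ∈ (range (i + 1)).biUnion fun l => (Z i (V i) l).support :=
        mem_biUnion.2 ⟨l, mem_range.2 hl, hj⟩
      exact le_sup (f := id) h1
    · have h0 := (hb i).2.2.1 l (by omega)
      rw [h0] at hj
      simp at hj
  refine ⟨z, ⟨fun i l j => (hb i).1 l j, fun i l hl => (hb i).2.1 l (by omega),
    fun i l hl => (hb i).2.2.1 l (by omega), fun i l j hj => ((hb i).2.2.2.1 l j hj).1,
    ?_, fun i => (hb i).2.2.2.2.2.1, ?_⟩⟩
  · intro i l i' l' hne
    rcases lt_trichotomy i i' with h | h | h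
    · rw [Finset.disjoint_left]
      intro j hj hj'
      have h1 := hup i l j hj
      have h2 := hlow i' l' j hj'
      have h3 := hmono (show i + 1 ≤ i' by omega)
      omega
    · subst h
      apply (hb i).2.2.2.2.1
      rintro rfl
      exact hne rfl
    · rw [Finset.disjoint_left]
      intro j hj hj'
      have h1 := hup i' l' j hj'
      have h2 := hlow i l j hj
      have h3 := hmono (show i' + 1 ≤ i by omega)
      omega
  · intro F hF I s
    rcases F.eq_empty_or_nonempty with hE | hNe
    · subst hE; simp
    obtain ⟨k, G, hG1, hG2, hG3, hG4⟩ := hF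
    set μ := F.min' hNe with hμ
    have hk : k ≤ μ + 1 := hG4 μ (F.min'_mem hNe)
    -- flatness on F
    have hflat : ∀ i l, ∑ j ∈ F, z i l j ≤ k * (1 / (2 ^ (i + 1) * ((V i : ℝ) + 1))) := by
      intro i l
      rw [hG3, Finset.sum_biUnion]
      · calc ∑ r : Fin k, ∑ j ∈ G r, z i l j
            ≤ ∑ r : Fin k, (1 / (2 ^ (i + 1) * ((V i : ℝ) + 1))) :=
              Finset.sum_le_sum fun r _ => (hb i).2.2.2.2.2.2 l (G r) (hG1 r).2
          _ = _ := by simp
      · intro a _ b _ hab
        show Disjoint (G a) (G b)
        rw [Finset.disjoint_left]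
        intro x hx hx'
        rcases lt_or_gt_of_ne hab with h | h
        · exact absurd (hG2 a b h x hx x hx') (lt_irrefl _)
        · exact absurd (hG2 b a h x hx' x hx) (lt_irrefl _)
    have hone : ∀ i l, ∑ j ∈ F, z i l j ≤ 1 := by
      intro i l
      have h1 : ∑ j ∈ F, z i l j ≤ ∑ j ∈ (z i l).support, z i l j := by
        rw [← Finset.sum_filter_add_sum_filter_not F (fun j => j ∈ (z i l).support)]
        have h2 : ∑ j ∈ F with ¬ j ∈ (z i l).support, z i l j = 0 := by
          apply Finset.sum_eq_zero
          intro j hj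
          have := (Finset.mem_filter.1 hj).2
          simpa using this
        rw [h2, add_zero]
        apply Finset.sum_le_sum_of_subset_of_nonneg
        · intro j hj; exact (Finset.mem_filter.1 hj).2
        · intro j _ _; exact (hb i).1 l j
      by_cases hl : l < i + 1
      · rw [(hb i).2.1 l hl] at h1; exact h1
      · have h0 := (hb i).2.2.1 l (by omega)
        rw [h0]; simp
    have hc : ∀ i, ∑ j ∈ F, z i (s i) j ≤ (1 / 2 : ℝ) ^ (i + 1) +
        (if V i < μ ∧ μ ≤ V (i + 1) then 1 else 0) := by
      intro i
      by_cases h1 : V (i + 1) < μ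
      · have h0 : ∑ j ∈ F, z i (s i) j = 0 := by
          apply Finset.sum_eq_zero
          intro j hj
          by_contra hne
          have h2 := hup i (s i) j (Finsupp.mem_support_iff.2 hne)
          have h3 := F.min'_le j hj
          omega
        rw [h0]
        split_ifs <;> positivity
      · by_cases h2 : V i < μ
        · rw [if_pos ⟨h2, by omega⟩]
          have := hone i (s i)
          have h3 : (0 : ℝ) ≤ (1 / 2 : ℝ) ^ (i + 1) := by positivity
          linarith
        · rw [if_neg (fun h => h2 h.1), add_zero]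
          refine (hflat i (s i)).trans ?_
          have h3 : (k : ℝ) ≤ (V i : ℝ) + 1 := by
            have : k ≤ V i + 1 := by omega
            exact_mod_cast this
          have h4 : (0 : ℝ) < (V i : ℝ) + 1 := by positivity
          rw [one_div_pow, mul_one_div, div_le_div_iff₀ (by positivity) (by positivity)]
          have h5 : (0 : ℝ) < 2 ^ (i + 1) := by positivity
          nlinarith
    calc ∑ i ∈ I, ∑ j ∈ F, z i (s i) j
        ≤ ∑ i ∈ I, ((1 / 2 : ℝ) ^ (i + 1) + (if V i < μ ∧ μ ≤ V (i + 1) then 1 else 0)) :=
          Finset.sum_le_sum fun i _ => hc i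
      _ = ∑ i ∈ I, (1 / 2 : ℝ) ^ (i + 1) +
          ((I.filter fun i => V i < μ ∧ μ ≤ V (i + 1)).card : ℝ) := by
          rw [Finset.sum_add_distrib]
          congr 1
          rw [Finset.sum_ite, Finset.sum_const_zero, add_zero, Finset.sum_const, nsmul_eq_mul,
            mul_one]
      _ ≤ 1 + 1 := by
          apply add_le_add
          · have h1 : ∑ i ∈ I, (1 / 2 : ℝ) ^ (i + 1) ≤ ∑ i ∈ range (I.sup id + 1),
                (1 / 2 : ℝ) ^ (i + 1) := by
              apply Finset.sum_le_sum_of_subset_of_nonneg
              · intro i hi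
                have : i ≤ I.sup id := le_sup (f := id) hi
                exact mem_range.2 (by omega)
              · intro i _ _; positivity
            have h2 := sum_geometric_two_le (I.sup id + 1)
            have h3 : ∑ i ∈ range (I.sup id + 1), (1 / 2 : ℝ) ^ (i + 1)
                = (1 / 2) * ∑ i ∈ range (I.sup id + 1), (1 / 2 : ℝ) ^ i := by
              rw [Finset.mul_sum]
              apply Finset.sum_congr rfl
              intro i _
              rw [pow_succ]; ring
            rw [h3] at h1
            linarith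
          · have : (I.filter fun i => V i < μ ∧ μ ≤ V (i + 1)).card ≤ 1 := by
              rw [Finset.card_le_one]
              intro a ha b hb'
              have h1 := (Finset.mem_filter.1 ha).2
              have h2 := (Finset.mem_filter.1 hb').2
              rcases lt_trichotomy a b with h | h | h
              · have h3 := hmono (show a + 1 ≤ b by omega)
                omega
              · exact h
              · have h3 := hmono (show b + 1 ≤ a by omega)
                omega
            exact_mod_cast this
      _ = 2 := by norm_num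

end Pool.Agent.X107.SP.SYS
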